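import Mathlib

set_option autoImplicit false

namespace Pool.Agent.K9h48.UI

open Complex Filter Topology Set Metric

theorem diff_iter {f : ℂ → ℂ} (hf : Differentiable ℂ f) (k : ℕ) :
    Differentiable ℂ (iteratedDeriv k f) := by
  have h : ContDiff ℂ ((k + 1 : ℕ) : WithTop ℕ∞) f := hf.contDiff
  exact h.differentiable_iteratedDeriv k (by exact_mod_cast Nat.lt_succ_self k)

theorem tlu_iter {ι : Type*} {l : Filter ι} [l.NeBot] {F : ι → ℂ → ℂ} {f : ℂ → ℂ}
    (hd : ∀ i, Differentiable ℂ (F i)) (h : TendstoLocallyUniformlyOn F f l univ) (k : ℕ) :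
    TendstoLocallyUniformlyOn (fun i => iteratedDeriv k (F i)) (iteratedDeriv k f) l univ := by
  induction k with
  | zero => simpa [iteratedDeriv_zero] using h
  | succ k ih =>
    simp only [iteratedDeriv_succ]
    exact ih.deriv (Eventually.of_forall fun i => (diff_iter (hd i) k).differentiableOn) isOpen_univ

/-- pointwise convergence of a locally bounded family of entire functions is locally uniform -/
theorem tlu_pt {ι : Type*} {l : Filter ι} [l.NeBot] {F : ι → ℂ → ℂ} {f : ℂ → ℂ} {W : ℂ → ℝ}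
    (hW : Continuous W) (hd : ∀ i, Differentiable ℂ (F i)) (hb : ∀ i z, ‖F i z‖ ≤ W z)
    (hp : ∀ z, Tendsto (fun i => F i z) l (𝓝 (f z))) :
    TendstoLocallyUniformlyOn F f l univ := by
  obtain ⟨i0⟩ : Nonempty ι := l.nonempty_of_neBot
  rw [Metric.tendstoLocallyUniformlyOn_iff]
  intro ε hε x _
  obtain ⟨M, hM⟩ := (isCompact_closedBall x 1).exists_bound_of_continuousOn hW.continuousOn
  have hM0 : 0 ≤ M := le_trans (norm_nonneg _) (hM x (mem_closedBall_self zero_le_one))
  have hbM : ∀ i, ∀ z ∈ ball x 1, ‖F i z‖ ≤ M := by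
    intro i z hz
    refine (hb i z).trans ((le_abs_self _).trans ?_)
    exact hM z (ball_subset_closedBall hz)
  set L : ℝ := 2 * M + 1 with hL
  have hLp : 0 < L := by positivity
  have key : ∀ i, ∀ z ∈ ball x 1, dist (F i z) (F i x) ≤ L * dist z x := by
    intro i z hz
    have h1 : dist (F i z) (F i x) ≤ (2 * M) / 1 * dist z x := by
      apply Complex.dist_le_div_mul_dist_of_mapsTo_ball (hd i).differentiableOn _ hz
      intro w hw
      rw [mem_closedBall, dist_eq_norm]
      have h1 := hbM i w hw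
      have h2 := hbM i x (mem_ball_self one_pos)
      have h3 := norm_sub_le (F i w) (F i x)
      linarith
    refine h1.trans ?_
    rw [div_one, hL]
    gcongr
    linarith
  have keyf : ∀ z ∈ ball x 1, dist (f z) (f x) ≤ L * dist z x := by
    intro z hz
    have h1 : Tendsto (fun i => dist (F i z) (F i x)) l (𝓝 (dist (f z) (f x))) :=
      (hp z).dist (hp x)
    exact le_of_tendsto h1 (Eventually.of_forall fun i => key i z hz)
  refine ⟨ball x (min 1 (ε / (4 * L))), mem_nhdsWithin_of_mem_nhds (ball_mem_nhds _ (by positivity)), ?_⟩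
  have hx' : ∀ᶠ i in l, dist (F i x) (f x) < ε / 4 := (Metric.tendsto_nhds.1 (hp x)) _ (by positivity)
  filter_upwards [hx'] with i hi y hy
  have hy1 : y ∈ ball x 1 := ball_subset_ball (min_le_left _ _) hy
  have hy2 : dist y x < ε / (4 * L) := lt_of_lt_of_le hy (min_le_right _ _)
  have hy3 : L * dist y x < ε / 4 := by
    calc L * dist y x < L * (ε / (4 * L)) := by gcongr
      _ = ε / 4 := by field_simp
  have h1 := key i y hy1
  have h2 := keyf y hy1
  calc dist (f y) (F i y) ≤ dist (f y) (f x) + dist (f x) (F i x) + dist (F i x) (F i y) :=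
        dist_triangle4 _ _ _ _
    _ < ε := by
        rw [dist_comm (f x), dist_comm (F i x) (F i y)]
        linarith

/-- weighted series of entire functions -/
theorem sum_lemma {F : ℕ → ℂ → ℂ} {u : ℕ → ℝ} {W : ℂ → ℝ} (hW : Continuous W) (hu : Summable u)
    (hd : ∀ i, Differentiable ℂ (F i)) (hb : ∀ i z, ‖F i z‖ ≤ u i * W z) :
    Differentiable ℂ (fun z => ∑' i, F i z) ∧ (∀ z, ‖∑' i, F i z‖ ≤ (∑' i, u i) * W z) ∧
      ∀ k a, HasSum (fun i => iteratedDeriv k (F i) a)
        (iteratedDeriv k (fun z => ∑' i, F i z) a) := by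
  have hsW : ∀ z, Summable (fun i => u i * W z) := fun z => hu.mul_right _
  have hsF : ∀ z, Summable (fun i => F i z) := fun z =>
    Summable.of_norm_bounded (hsW z) (fun i => hb i z)
  have hnn : ∀ i z, 0 ≤ u i * W z := fun i z => (norm_nonneg _).trans (hb i z)
  have hbd : ∀ (s : Finset ℕ) z, ‖∑ i ∈ s, F i z‖ ≤ (∑' i, u i) * W z := by
    intro s z
    calc ‖∑ i ∈ s, F i z‖ ≤ ∑ i ∈ s, ‖F i z‖ := norm_sum_le _ _
      _ ≤ ∑ i ∈ s, u i * W z := Finset.sum_le_sum fun i _ => hb i z
      _ ≤ ∑' i, u i * W z := (hsW z).sum_le_tsum s (fun i _ => hnn i z)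
      _ = (∑' i, u i) * W z := tsum_mul_right
  have hds : ∀ s : Finset ℕ, Differentiable ℂ (fun z => ∑ i ∈ s, F i z) := fun s =>
    Differentiable.fun_sum fun i _ => hd i
  have htl : TendstoLocallyUniformlyOn (fun (s : Finset ℕ) z => ∑ i ∈ s, F i z)
      (fun z => ∑' i, F i z) atTop univ := by
    apply tlu_pt (W := fun z => (∑' i, u i) * W z) (by fun_prop) hds hbd
    intro z
    exact (hsF z).hasSum
  refine ⟨?_, ?_, ?_⟩
  · rw [← differentiableOn_univ]
    exact htl.differentiableOn (Eventually.of_forall fun s => (hds s).differentiableOn) isOpen_univ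
  · intro z
    have h1 : Tendsto (fun s : Finset ℕ => ‖∑ i ∈ s, F i z‖) atTop (𝓝 ‖∑' i, F i z‖) :=
      (htl.tendsto_at (mem_univ z)).norm
    exact le_of_tendsto h1 (Eventually.of_forall fun s => hbd s z)
  · intro k a
    have h1 := (tlu_iter hds htl k).tendsto_at (mem_univ a)
    have h2 : ∀ s : Finset ℕ, iteratedDeriv k (fun z => ∑ i ∈ s, F i z) a =
        ∑ i ∈ s, iteratedDeriv k (F i) a := by
      intro s
      rw [iteratedDeriv_fun_sum]
      intro i _
      exact (hd i).contDiff.contDiffAt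
    simp only [h2] at h1
    exact h1

end Pool.Agent.K9h48.UI
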