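import Mathlib

set_option autoImplicit false

namespace Pool.Agent.K9h48.UI

open Filter Topology Set Metric

/-- finite choice of coefficients from finite arithmetic progressions, by counting -/
theorem finite_choice (N : ℕ) (K : Fin N → ℕ) (hK : ∀ m, 0 < K m)
    (hsum : ∑ m, 1 / (K m : ℝ) < 1) (c : Fin N → Fin N → ℂ) :
    ∃ j : Fin N → ℕ, (∀ m, j m < K m) ∧
      ∀ n, ‖c n n‖ / (2 * K n) ≤ ‖∑ m, ((j m : ℝ) / K m : ℝ) * c n m‖ := by
  classical
  set S : Finset (Fin N → ℕ) := Fintype.piFinset (fun m => Finset.range (K m)) with hS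
  have hScard : S.card = ∏ m, K m := by
    rw [hS, Fintype.card_piFinset]
    simp
  set bad : Fin N → Finset (Fin N → ℕ) := fun n =>
    S.filter (fun j => ‖∑ m, ((j m : ℝ) / K m : ℝ) * c n m‖ < ‖c n n‖ / (2 * K n)) with hbad
  have hbadcard : ∀ n, ((bad n).card : ℝ) ≤ (∏ m, (K m : ℝ)) * (1 / K n) := by
    intro n
    have hKn : (0 : ℝ) < K n := by exact_mod_cast hK n
    have hinj : Set.InjOn (fun j : Fin N → ℕ => Function.update j n 0) (bad n : Set (Fin N → ℕ)) := by
      intro j hj j' hj' hjj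
      simp only [hbad, Finset.coe_filter, Set.mem_ofPred_eq] at hj hj'
      have hoff : ∀ m, m ≠ n → j m = j' m := by
        intro m hm
        have := congrFun hjj m
        simpa [Function.update_of_ne hm] using this
      have hdiff : (∑ m, (((j m : ℝ) / K m : ℝ) : ℂ) * c n m) -
          (∑ m, (((j' m : ℝ) / K m : ℝ) : ℂ) * c n m) =
          ((((j n : ℝ) - j' n) / K n : ℝ) : ℂ) * c n n := by
        rw [← Finset.sum_sub_distrib, Finset.sum_eq_single n]
        · push_cast; ring
        · intro m _ hm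
          rw [hoff m hm, sub_self]
        · intro h; exact absurd (Finset.mem_univ n) h
      have h1 : ‖((((j n : ℝ) - j' n) / K n : ℝ) : ℂ) * c n n‖ < ‖c n n‖ / K n := by
        rw [← hdiff]
        refine (norm_sub_le _ _).trans_lt ?_
        have h2 := hj.2
        have h3 := hj'.2
        have h4 : ‖c n n‖ / (2 * K n) + ‖c n n‖ / (2 * K n) = ‖c n n‖ / K n := by
          field_simp
          ring
        linarith
      rw [norm_mul, Complex.norm_real, Real.norm_eq_abs, abs_div, abs_of_pos hKn] at h1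
      have h5 : |(j n : ℝ) - j' n| * ‖c n n‖ < 1 * ‖c n n‖ := by
        rw [div_mul_eq_mul_div, div_lt_div_iff_of_pos_right hKn] at h1
        linarith
      have h6 : |(j n : ℝ) - j' n| < 1 := lt_of_mul_lt_mul_right h5 (norm_nonneg _)
      have h7 : (j n : ℤ) = j' n := by
        have h8 : |((j n : ℤ) : ℝ) - ((j' n : ℤ) : ℝ)| < 1 := by exact_mod_cast h6
        have h9 : |(j n : ℤ) - (j' n : ℤ)| < 1 := by exact_mod_cast h8
        have h10 := Int.abs_lt_one_iff.1 h9
        linarith
      funext m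
      by_cases hm : m = n
      · subst hm; exact_mod_cast h7
      · exact hoff m hm
    have hmaps : ∀ j ∈ bad n, Function.update j n 0 ∈
        Fintype.piFinset (Function.update (fun m => Finset.range (K m)) n {0}) := by
      intro j hj
      rw [hbad, Finset.mem_filter, hS, Fintype.mem_piFinset] at hj
      rw [Fintype.mem_piFinset]
      intro m
      by_cases hm : m = n
      · subst hm; simp
      · rw [Function.update_of_ne hm, Function.update_of_ne hm]
        exact hj.1 m
    have hc1 := Finset.card_le_card_of_injOn _ hmaps hinj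
    rw [Fintype.card_piFinset] at hc1
    have hc2 : (∏ m, (Function.update (fun m => Finset.range (K m)) n {0} m).card) * K n =
        ∏ m, K m := by
      rw [← Finset.mul_prod_erase Finset.univ _ (Finset.mem_univ n),
        ← Finset.mul_prod_erase Finset.univ K (Finset.mem_univ n)]
      have h1 : ∏ x ∈ Finset.univ.erase n,
          (Function.update (fun m => Finset.range (K m)) n {0} x).card =
          ∏ x ∈ Finset.univ.erase n, K x := by
        apply Finset.prod_congr rfl
        intro x hx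
        rw [Finset.mem_erase] at hx
        rw [Function.update_of_ne hx.1, Finset.card_range]
      rw [h1]
      simp
      ring
    have hc3 : (bad n).card * K n ≤ ∏ m, K m := by
      rw [← hc2]
      exact Nat.mul_le_mul_right _ hc1
    have hc4 : ((bad n).card : ℝ) * K n ≤ ∏ m, (K m : ℝ) := by exact_mod_cast hc3
    rw [mul_one_div, le_div_iff₀ hKn]
    exact hc4
  have hprod : (0 : ℝ) < ∏ m, (K m : ℝ) := Finset.prod_pos fun m _ => by exact_mod_cast hK m
  have htot : ((Finset.univ.biUnion bad).card : ℝ) < S.card := by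
    have h1 : ((Finset.univ.biUnion bad).card : ℝ) ≤ ∑ n, ((bad n).card : ℝ) := by
      exact_mod_cast Finset.card_biUnion_le
    have h2 : ∑ n, ((bad n).card : ℝ) ≤ (∏ m, (K m : ℝ)) * ∑ n, 1 / (K n : ℝ) := by
      rw [Finset.mul_sum]
      exact Finset.sum_le_sum fun n _ => hbadcard n
    have h3 : (S.card : ℝ) = ∏ m, (K m : ℝ) := by rw [hScard]; push_cast; rfl
    rw [h3]
    nlinarith
  have hex : ∃ j ∈ S, j ∉ Finset.univ.biUnion bad := by
    by_contra hcon
    push Not at hcon
    have h1 : S ⊆ Finset.univ.biUnion bad := fun j hj => hcon j hj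
    have h2 := Finset.card_le_card h1
    have h3 : (S.card : ℝ) ≤ (Finset.univ.biUnion bad).card := by exact_mod_cast h2
    linarith
  obtain ⟨j, hj, hjb⟩ := hex
  refine ⟨j, ?_, ?_⟩
  · intro m
    rw [hS, Fintype.mem_piFinset] at hj
    exact Finset.mem_range.1 (hj m)
  · intro n
    by_contra hlt
    push Not at hlt
    apply hjb
    rw [Finset.mem_biUnion]
    exact ⟨n, Finset.mem_univ n, Finset.mem_filter.2 ⟨hj, hlt⟩⟩

/-- infinite version by compactness -/
theorem infinite_choice (K : ℕ → ℕ) (hK : ∀ m, 0 < K m) (hKs : Summable (fun m => 1 / (K m : ℝ)))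
    (hsum : ∑' m, 1 / (K m : ℝ) < 1) (c : ℕ → ℕ → ℂ) (v : ℕ → ℕ → ℝ)
    (hv : ∀ n, Summable (v n)) (hcv : ∀ n m, ‖c n m‖ ≤ v n m) :
    ∃ θ : ℕ → ℝ, (∀ m, 0 ≤ θ m ∧ θ m ≤ 1) ∧
      ∀ n, ‖c n n‖ / (2 * K n) ≤ ‖∑' m, (θ m : ℂ) * c n m‖ := by
  classical
  set P : Set (ℕ → ℝ) := Set.pi univ (fun _ => Icc (0:ℝ) 1) with hP
  have hPc : IsCompact P := isCompact_univ_pi fun _ => isCompact_Icc
  have hcont : ∀ n, ContinuousOn (fun θ : ℕ → ℝ => ∑' m, (θ m : ℂ) * c n m) P := by
    intro n
    apply continuousOn_tsum (u := v n)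
    · intro m
      fun_prop
    · exact hv n
    · intro m θ hθ
      have h1 := hθ m (mem_univ m)
      rw [norm_mul, Complex.norm_real, Real.norm_of_nonneg h1.1]
      calc θ m * ‖c n m‖ ≤ 1 * ‖c n m‖ := mul_le_mul_of_nonneg_right h1.2 (norm_nonneg _)
        _ ≤ v n m := by rw [one_mul]; exact hcv n m
  set T : ℕ → Set (ℕ → ℝ) := fun N =>
    {θ | θ ∈ P ∧ ∀ n < N, ‖c n n‖ / (2 * K n) ≤ ‖∑' m, (θ m : ℂ) * c n m‖} with hT
  have hTclosed : ∀ N, IsClosed (T N) := by
    intro N
    have h1 : T N = P ∩ ⋂ n ∈ Finset.range N,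
        (P ∩ (fun θ : ℕ → ℝ => ‖∑' m, (θ m : ℂ) * c n m‖) ⁻¹' Ici (‖c n n‖ / (2 * K n))) := by
      ext θ
      simp only [hT, mem_ofPred_eq, mem_inter_iff, mem_iInter, Finset.mem_range, mem_preimage, mem_Ici]
      constructor
      · rintro ⟨h1, h2⟩
        exact ⟨h1, fun n hn => ⟨h1, h2 n hn⟩⟩
      · rintro ⟨h1, h2⟩
        exact ⟨h1, fun n hn => (h2 n hn).2⟩
    rw [h1]
    apply hPc.isClosed.inter
    apply isClosed_biInter
    intro n _
    exact (hcont n).norm.preimage_isClosed_of_isClosed hPc.isClosed isClosed_Ici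
  have hTne : ∀ N, (T N).Nonempty := by
    intro N
    have hs1 : ∑ m : Fin N, 1 / (K m : ℝ) < 1 := by
      rw [Fin.sum_univ_eq_sum_range (fun m => 1 / (K m : ℝ)) N]
      exact (hKs.sum_le_tsum _ (fun m _ => by positivity)).trans_lt hsum
    obtain ⟨j, hj1, hj2⟩ := finite_choice N (fun m => K m) (fun m => hK m) hs1 (fun n m => c n m)
    refine ⟨fun m => if h : m < N then (j ⟨m, h⟩ : ℝ) / K m else 0, ?_, ?_⟩
    · intro m _
      simp only
      split_ifs with h
      · have h1 : (0 : ℝ) < K m := by exact_mod_cast hK m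
        have h2 : (j ⟨m, h⟩ : ℝ) ≤ K m := by exact_mod_cast (hj1 ⟨m, h⟩).le
        exact ⟨by positivity, by rw [div_le_one h1]; exact h2⟩
      · exact ⟨le_refl _, zero_le_one⟩
    · intro n hn
      have h1 := hj2 ⟨n, hn⟩
      have h2 : ∑' m, (((if h : m < N then (j ⟨m, h⟩ : ℝ) / K m else 0 : ℝ)) : ℂ) * c n m =
          ∑ m : Fin N, ((j m : ℝ) / K m : ℝ) * c n m := by
        rw [tsum_eq_sum (s := Finset.range N)]
        · rw [← Fin.sum_univ_eq_sum_range
            (fun m => (((if h : m < N then (j ⟨m, h⟩ : ℝ) / K m else 0 : ℝ)) : ℂ) * c n m) N]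
          apply Finset.sum_congr rfl
          intro m _
          rw [dif_pos m.2]
        · intro m hm
          rw [Finset.mem_range] at hm
          rw [dif_neg hm]
          simp
      rw [h2]
      exact h1
  have hTmono : ∀ N, T (N + 1) ⊆ T N := by
    intro N θ hθ
    exact ⟨hθ.1, fun n hn => hθ.2 n (hn.trans (Nat.lt_succ_self N))⟩
  have hT0 : IsCompact (T 0) := hPc.of_isClosed_subset (hTclosed 0) (fun θ hθ => hθ.1)
  obtain ⟨θ, hθ⟩ := IsCompact.nonempty_iInter_of_sequence_nonempty_isCompact_isClosed T hTmono hTne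
    hT0 hTclosed
  rw [mem_iInter] at hθ
  refine ⟨θ, fun m => (hθ 0).1 m (mem_univ m), fun n => (hθ (n + 1)).2 n (Nat.lt_succ_self n)⟩

end Pool.Agent.K9h48.UI
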