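import Pool.Agent.K9h48.UI.Basic

set_option autoImplicit false

namespace Pool.Agent.K9h48.UI

open Complex Filter Topology Set Metric

theorem factor_zeros {F : ℂ → ℂ} (hF : Differentiable ℂ F) (u : Finset ℂ) (hu : ∀ t ∈ u, F t = 0) :
    ∃ H : ℂ → ℂ, Differentiable ℂ H ∧ ∀ z, F z = (∏ t ∈ u, (z - t)) * H z := by
  classical
  induction u using Finset.induction_on with
  | empty => exact ⟨F, hF, by simp⟩
  | insert a s ha ih =>
    obtain ⟨H, hH, hz⟩ := ih fun t ht => hu t (Finset.mem_insert_of_mem ht)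
    have h1 : H a = 0 := by
      have h2 := hu a (Finset.mem_insert_self a s)
      rw [hz a] at h2
      rcases mul_eq_zero.1 h2 with h3 | h3
      · exfalso
        rw [Finset.prod_eq_zero_iff] at h3
        obtain ⟨t, ht, h4⟩ := h3
        rw [sub_eq_zero] at h4
        rw [h4] at ha
        exact ha ht
      · exact h3
    refine ⟨dslope H a, ?_, ?_⟩
    · have := (Complex.differentiableOn_dslope (s := (univ : Set ℂ)) (c := a) univ_mem).2
        hH.differentiableOn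
      exact differentiableOn_univ.1 this
    · intro z
      have h5 := sub_smul_dslope H a z
      rw [h1, sub_zero, smul_eq_mul] at h5
      rw [hz z, Finset.prod_insert ha, ← h5]
      ring

theorem two_pow_card_le {F : ℂ → ℂ} (hF : Differentiable ℂ F) (p : ℂ) {r M : ℝ} (hr : 0 < r)
    (hM : ∀ z, ‖z - p‖ ≤ 3 * r → ‖F z‖ ≤ M) (u : Finset ℂ) (hu : ∀ t ∈ u, F t = 0)
    (hu2 : ∀ t ∈ u, ‖p - t‖ ≤ r) : ‖F p‖ * 2 ^ u.card ≤ M := by
  obtain ⟨H, hH, hz⟩ := factor_zeros hF u hu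
  have h1 : ∀ z ∈ frontier (ball p (3 * r)), ‖H z‖ ≤ M / (2 * r) ^ u.card := by
    intro z hz'
    rw [frontier_ball p (by positivity), mem_sphere, dist_eq_norm] at hz'
    rw [le_div_iff₀ (by positivity)]
    have h2 := hM z hz'.le
    rw [hz z, norm_mul, norm_prod] at h2
    have h3 : (2 * r) ^ u.card ≤ ∏ t ∈ u, ‖z - t‖ := by
      rw [← Finset.prod_const]
      apply Finset.prod_le_prod
      · intro _ _; positivity
      · intro t ht
        have h4 := hu2 t ht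
        have h5 : ‖z - p‖ ≤ ‖z - t‖ + ‖p - t‖ := by
          have := norm_sub_le (z - t) (p - t)
          rwa [sub_sub_sub_cancel_right] at this
        linarith
    calc ‖H z‖ * (2 * r) ^ u.card ≤ ‖H z‖ * ∏ t ∈ u, ‖z - t‖ :=
          mul_le_mul_of_nonneg_left h3 (norm_nonneg _)
      _ = (∏ t ∈ u, ‖z - t‖) * ‖H z‖ := mul_comm _ _
      _ ≤ M := h2
  have h2 : ‖H p‖ ≤ M / (2 * r) ^ u.card :=
    Complex.norm_le_of_forall_mem_frontier_norm_le isBounded_ball hH.diffContOnCl h1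
      (subset_closure (mem_ball_self (by positivity)))
  have h3 : ‖F p‖ ≤ r ^ u.card * (M / (2 * r) ^ u.card) := by
    rw [hz p, norm_mul, norm_prod]
    apply mul_le_mul _ h2 (norm_nonneg _) (by positivity)
    rw [← Finset.prod_const]
    apply Finset.prod_le_prod
    · intro _ _; positivity
    · intro t ht
      exact hu2 t ht
  have h4 : r ^ u.card * (M / (2 * r) ^ u.card) = M / 2 ^ u.card := by
    rw [mul_pow]
    field_simp
  rw [h4, le_div_iff₀ (by positivity)] at h3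
  exact h3

/-- the weight -/
noncomputable def rho (z : ℂ) : ℝ := |z.im| + Real.log (1 + ‖z‖ ^ 2)

theorem continuous_rho : Continuous rho := by
  unfold rho
  apply Continuous.add (by fun_prop)
  apply Continuous.log (by fun_prop)
  intro z
  positivity

theorem rho_nonneg (z : ℂ) : 0 ≤ rho z := by
  unfold rho
  have : 0 ≤ Real.log (1 + ‖z‖ ^ 2) := Real.log_nonneg (by nlinarith [norm_nonneg z])
  positivity

theorem rho_le (z : ℂ) : rho z ≤ 3 * ‖z‖ := by
  unfold rho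
  have h1 := Complex.abs_im_le_norm z
  have h2 : Real.log (1 + ‖z‖ ^ 2) ≤ 2 * ‖z‖ := by
    rw [Real.log_le_iff_le_exp (by positivity)]
    have h3 := Real.add_one_le_exp ‖z‖
    have h4 : Real.exp (2 * ‖z‖) = Real.exp ‖z‖ ^ 2 := by
      rw [← Real.exp_nat_mul]; norm_num
    rw [h4]
    nlinarith [norm_nonneg z]
  linarith

theorem one_add_sq_le (z : ℂ) : 1 + ‖z‖ ^ 2 ≤ Real.exp (rho z) := by
  have h1 : Real.exp (Real.log (1 + ‖z‖ ^ 2)) = 1 + ‖z‖ ^ 2 := Real.exp_log (by positivity)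
  calc 1 + ‖z‖ ^ 2 = Real.exp (Real.log (1 + ‖z‖ ^ 2)) := h1.symm
    _ ≤ Real.exp (rho z) := Real.exp_le_exp.2 (by unfold rho; linarith [abs_nonneg z.im])

theorem one_add_le (z : ℂ) : 1 + ‖z‖ ≤ 2 * Real.exp (rho z) := by
  have := one_add_sq_le z
  nlinarith [sq_nonneg (‖z‖ - 1), norm_nonneg z]

/-- linear counting bound for the zeros in a disc -/
theorem count_le {F : ℂ → ℂ} (hF : Differentiable ℂ F) {A B : ℝ} (hA : 0 < A) (hB : 0 < B)
    (hb : ∀ z, ‖F z‖ ≤ A * Real.exp (B * rho z)) {z0 : ℂ} (hz0 : F z0 ≠ 0) :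
    ∃ C : ℝ, 0 ≤ C ∧ ∀ r : ℝ, 0 < r → ∀ u : Finset ℂ, (∀ t ∈ u, F t = 0) →
      (∀ t ∈ u, ‖z0 - t‖ ≤ r) → (u.card : ℝ) ≤ C * (1 + r) := by
  have hF0 : 0 < ‖F z0‖ := norm_pos_iff.2 hz0
  have hlog2 : 0 < Real.log 2 := Real.log_pos (by norm_num)
  set K : ℝ := |Real.log (A / ‖F z0‖)| + 3 * B * ‖z0‖ with hK
  have hK0 : 0 ≤ K := by positivity
  refine ⟨(K + 9 * B) / Real.log 2, by positivity, ?_⟩
  intro r hr u hu hu2
  have h1 := two_pow_card_le hF z0 hr (M := A * Real.exp (3 * B * (3 * r + ‖z0‖))) (by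
    intro z hz
    refine (hb z).trans ?_
    have h2 := rho_le z
    have h3 : ‖z‖ ≤ 3 * r + ‖z0‖ := by
      have := norm_sub_norm_le z z0
      linarith
    have h4 : B * rho z ≤ 3 * B * (3 * r + ‖z0‖) := by nlinarith
    gcongr) u hu hu2
  have h5 : (2 : ℝ) ^ u.card ≤ (A / ‖F z0‖) * Real.exp (3 * B * (3 * r + ‖z0‖)) := by
    rw [div_mul_eq_mul_div, le_div_iff₀ hF0]
    linarith
  have h6 := Real.log_le_log (by positivity) h5
  rw [Real.log_pow, Real.log_mul (by positivity) (by positivity), Real.log_exp] at h6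
  rw [div_mul_eq_mul_div, le_div_iff₀ hlog2]
  have h7 := le_abs_self (Real.log (A / ‖F z0‖))
  nlinarith

/-- The points of the sequence are summable against a negative power of the weight. -/
theorem summable_pts {F : ℂ → ℂ} (hF : Differentiable ℂ F) {A B : ℝ} (hA : 0 < A) (hB : 0 < B)
    (hb : ∀ z, ‖F z‖ ≤ A * Real.exp (B * rho z)) {z0 : ℂ} (hz0 : F z0 ≠ 0) (a : ℕ → ℂ)
    (ha : Function.Injective a) (h0 : ∀ n, F (a n) = 0) :
    Summable (fun n => Real.exp (-(2 * rho (a n)))) := by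
  classical
  obtain ⟨C, hC, hc⟩ := count_le hF hA hB hb hz0
  set k : ℕ → ℕ := fun n => ⌊‖z0 - a n‖⌋₊ with hk
  set D : ℝ := 4 * (1 + ‖z0‖) ^ 4 with hD
  have hD0 : 0 ≤ D := by positivity
  have hterm : ∀ n, Real.exp (-(2 * rho (a n))) ≤ D / (1 + (k n : ℝ)) ^ 4 := by
    intro n
    have h1 := one_add_sq_le (a n)
    have h2 : (k n : ℝ) ≤ ‖z0 - a n‖ := Nat.floor_le (norm_nonneg _)
    have h3 : ‖z0 - a n‖ ≤ ‖z0‖ + ‖a n‖ := norm_sub_le _ _
    have h4 : 1 + (k n : ℝ) ≤ (1 + ‖z0‖) * (1 + ‖a n‖) := by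
      nlinarith [norm_nonneg z0, norm_nonneg (a n), mul_nonneg (norm_nonneg z0) (norm_nonneg (a n))]
    have h5 : (1 + ‖a n‖) ^ 2 ≤ 2 * Real.exp (rho (a n)) := by
      nlinarith [sq_nonneg (‖a n‖ - 1)]
    have h6 : (1 + (k n : ℝ)) ^ 4 ≤ D * Real.exp (2 * rho (a n)) := by
      have h7 : Real.exp (2 * rho (a n)) = Real.exp (rho (a n)) ^ 2 := by
        rw [← Real.exp_nat_mul]; norm_num
      calc (1 + (k n : ℝ)) ^ 4 ≤ ((1 + ‖z0‖) * (1 + ‖a n‖)) ^ 4 := by gcongr
        _ = (1 + ‖z0‖) ^ 4 * ((1 + ‖a n‖) ^ 2) ^ 2 := by ring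
        _ ≤ (1 + ‖z0‖) ^ 4 * (2 * Real.exp (rho (a n))) ^ 2 := by gcongr
        _ = D * Real.exp (2 * rho (a n)) := by rw [h7, hD]; ring
    rw [le_div_iff₀ (by positivity), Real.exp_neg, inv_mul_le_iff₀ (Real.exp_pos _)]
    linarith
  have hcard : ∀ (s : Finset ℕ) (j : ℕ), ((s.filter (fun n => k n = j)).card : ℝ) ≤
      C * (1 + (j + 1)) := by
    intro s j
    have h1 := hc ((j : ℝ) + 1) (by positivity) ((s.filter (fun n => k n = j)).image a) (by
      intro t ht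
      rw [Finset.mem_image] at ht
      obtain ⟨n, _, rfl⟩ := ht
      exact h0 n) (by
      intro t ht
      rw [Finset.mem_image] at ht
      obtain ⟨n, hn, rfl⟩ := ht
      rw [Finset.mem_filter] at hn
      have h2 := Nat.lt_floor_add_one ‖z0 - a n‖
      have h3 : (⌊‖z0 - a n‖⌋₊ : ℝ) = (j : ℝ) := by exact_mod_cast hn.2
      rw [h3] at h2
      exact h2.le)
    rwa [Finset.card_image_of_injective _ ha] at h1
  have hs3 : Summable (fun j : ℕ => 2 * C * D / (1 + (j : ℝ)) ^ 3) := by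
    have h1 : Summable (fun j : ℕ => 1 / (j : ℝ) ^ 3) := Real.summable_one_div_nat_pow.2 (by norm_num)
    have h2 := (summable_nat_add_iff 1).2 h1
    refine (h2.mul_left (2 * C * D)).congr ?_
    intro j
    push_cast
    rw [add_comm (1:ℝ)]
    ring
  apply summable_of_sum_le (c := ∑' j : ℕ, 2 * C * D / (1 + (j : ℝ)) ^ 3) (fun n => (Real.exp_pos _).le)
  intro s
  calc ∑ n ∈ s, Real.exp (-(2 * rho (a n))) ≤ ∑ n ∈ s, D / (1 + (k n : ℝ)) ^ 4 :=
        Finset.sum_le_sum fun n _ => hterm n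
    _ = ∑ j ∈ s.image k, (s.filter (fun n => k n = j)).card • (D / (1 + (j : ℝ)) ^ 4) :=
        Finset.sum_comp (fun j : ℕ => D / (1 + (j : ℝ)) ^ 4) k
    _ ≤ ∑ j ∈ s.image k, 2 * C * D / (1 + (j : ℝ)) ^ 3 := by
        apply Finset.sum_le_sum
        intro j _
        rw [nsmul_eq_mul]
        have h1 := hcard s j
        have h2 : C * (1 + ((j : ℝ) + 1)) ≤ C * (2 * (1 + (j : ℝ))) := by
          apply mul_le_mul_of_nonneg_left _ hC
          have : (0 : ℝ) ≤ j := Nat.cast_nonneg j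
          linarith
        calc ((s.filter (fun n => k n = j)).card : ℝ) * (D / (1 + (j : ℝ)) ^ 4)
            ≤ (C * (2 * (1 + (j : ℝ)))) * (D / (1 + (j : ℝ)) ^ 4) := by
              apply mul_le_mul_of_nonneg_right (h1.trans h2) (by positivity)
          _ = 2 * C * D / (1 + (j : ℝ)) ^ 3 := by
              field_simp
    _ ≤ ∑' j : ℕ, 2 * C * D / (1 + (j : ℝ)) ^ 3 :=
        hs3.sum_le_tsum _ (fun j _ => by positivity)

end Pool.Agent.K9h48.UI
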