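import Pool.Agent.K9h48.UI.Basic

set_option autoImplicit false

namespace Pool.Agent.K9h48.UI

open Complex Filter Topology Set Metric

/-- `g` takes the values `μ n` at the top order of the point `a n`, and zero at all lower orders. -/
def Interp (a : ℕ → ℂ) (p : ℕ → ℕ) (g : ℂ → ℂ) (μ : ℕ → ℂ) : Prop :=
  ∀ n, ∀ κ < p n, iteratedDeriv κ g (a n) = if κ = p n - 1 then (κ.factorial : ℂ) * μ n else 0

/-- data with an interpolant in the `N`-th bounded set of the class -/
def CN (ρ : ℂ → ℝ) (a : ℕ → ℂ) (p : ℕ → ℕ) (N : ℕ) : Set (BoundedContinuousFunction ℕ ℂ) :=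
  {μ | ∃ g : ℂ → ℂ, Differentiable ℂ g ∧ (∀ z, ‖g z‖ ≤ N * Real.exp (N * ρ z)) ∧
    Interp a p g μ}

theorem isClosed_CN {ρ : ℂ → ℝ} (hρ : Continuous ρ) (a : ℕ → ℂ) (p : ℕ → ℕ) (N : ℕ) :
    IsClosed (CN ρ a p N) := by
  classical
  rw [isClosed_iff_ultrafilter]
  intro x u hux hu
  let G : BoundedContinuousFunction ℕ ℂ → ℂ → ℂ :=
    fun μ => if h : μ ∈ CN ρ a p N then Classical.choose h else 0
  have hG1 : ∀ μ, Differentiable ℂ (G μ) := by
    intro μ
    by_cases h : μ ∈ CN ρ a p N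
    · simp only [G, dif_pos h]
      exact (Classical.choose_spec h).1
    · simp only [G, dif_neg h]
      exact differentiable_const _
  have hG2 : ∀ μ z, ‖G μ z‖ ≤ N * Real.exp (N * ρ z) := by
    intro μ z
    by_cases h : μ ∈ CN ρ a p N
    · simp only [G, dif_pos h]
      exact (Classical.choose_spec h).2.1 z
    · simp only [G, dif_neg h, Pi.zero_apply, norm_zero]
      positivity
  have hG3 : ∀ μ ∈ CN ρ a p N, Interp a p (G μ) μ := by
    intro μ h
    simp only [G, dif_pos h]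
    exact (Classical.choose_spec h).2.2
  have hlim : ∀ z, ∃ w, Tendsto (fun μ => G μ z) (u : Filter _) (𝓝 w) := by
    intro z
    have hc := isCompact_closedBall (0 : ℂ) (N * Real.exp (N * ρ z))
    obtain ⟨w, _, hw⟩ := hc.ultrafilter_le_nhds' (u.map (fun μ => G μ z)) (by
      rw [Ultrafilter.mem_map]
      apply univ_mem'
      intro μ
      simp only [mem_preimage, mem_closedBall_zero_iff]
      exact hG2 μ z)
    exact ⟨w, hw⟩
  choose g hg using hlim
  have htl : TendstoLocallyUniformlyOn G g (u : Filter _) univ :=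
    tlu_pt (W := fun z => N * Real.exp (N * ρ z)) (by fun_prop) hG1 hG2 hg
  refine ⟨g, ?_, ?_, ?_⟩
  · rw [← differentiableOn_univ]
    exact htl.differentiableOn (Eventually.of_forall fun s => (hG1 s).differentiableOn) isOpen_univ
  · intro z
    exact le_of_tendsto (hg z).norm (Eventually.of_forall fun μ => hG2 μ z)
  · intro n κ hκ
    have h1 := (tlu_iter hG1 htl κ).tendsto_at (mem_univ (a n))
    have h2 : ∀ᶠ μ in (u : Filter (BoundedContinuousFunction ℕ ℂ)),
        iteratedDeriv κ (G μ) (a n) = if κ = p n - 1 then (κ.factorial : ℂ) * μ n else 0 := by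
      filter_upwards [hu] with μ hμ
      exact hG3 μ hμ n κ hκ
    have h3 : Tendsto (fun μ : BoundedContinuousFunction ℕ ℂ => μ n) (u : Filter _) (𝓝 (x n)) :=
      ((continuous_eval_const n).tendsto x).mono_left hux
    have h4 : Tendsto (fun μ : BoundedContinuousFunction ℕ ℂ =>
        if κ = p n - 1 then (κ.factorial : ℂ) * μ n else 0) (u : Filter _)
        (𝓝 (if κ = p n - 1 then (κ.factorial : ℂ) * x n else 0)) := by
      split_ifs
      · exact h3.const_mul _
      · exact tendsto_const_nhds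
    exact tendsto_nhds_unique (h1.congr' h2) h4

/-- Uniformly bounded interpolating functions for the unit data at the top order. -/
theorem uniform_fns {ρ : ℂ → ℝ} (hρ : Continuous ρ) (hρ0 : ∀ z, 0 ≤ ρ z) (a : ℕ → ℂ) (p : ℕ → ℕ)
    (hint : ∀ μ : ℕ → ℂ, (∃ C : ℝ, ∀ n, ‖μ n‖ ≤ C) → ∃ g : ℂ → ℂ, Differentiable ℂ g ∧
      (∃ A > (0:ℝ), ∃ B > (0:ℝ), ∀ z, ‖g z‖ ≤ A * Real.exp (B * ρ z)) ∧ Interp a p g μ) :
    ∃ N : ℕ, ∀ n, ∃ G : ℂ → ℂ, Differentiable ℂ G ∧ (∀ z, ‖G z‖ ≤ N * Real.exp (N * ρ z)) ∧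
      Interp a p G (Pi.single n 1) := by
  classical
  have hU : ⋃ N : ℕ, CN ρ a p N = univ := by
    rw [eq_univ_iff_forall]
    intro μ
    obtain ⟨g, hg, ⟨A, hA, B, hB, hb⟩, hi⟩ := hint μ ⟨‖μ‖, fun n => μ.norm_coe_le_norm n⟩
    obtain ⟨N, hN⟩ := exists_nat_ge (max A B)
    rw [mem_iUnion]
    refine ⟨N, g, hg, fun z => (hb z).trans ?_, hi⟩
    have h1 : A ≤ N := (le_max_left _ _).trans hN
    have h2 : B ≤ N := (le_max_right _ _).trans hN
    have h3 := hρ0 z
    gcongr
  obtain ⟨N, hN⟩ := nonempty_interior_of_iUnion_of_closed (isClosed_CN hρ a p) hU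
  obtain ⟨x, hx⟩ := hN
  rw [mem_interior_iff_mem_nhds, Metric.mem_nhds_iff] at hx
  obtain ⟨r, hr, hxr⟩ := hx
  obtain ⟨gx, hgx, hbx, hix⟩ := hxr (mem_ball_self hr)
  obtain ⟨M, hM⟩ := exists_nat_ge (max (N : ℝ) (4 * N / r))
  refine ⟨M, fun n => ?_⟩
  let e : BoundedContinuousFunction ℕ ℂ :=
    BoundedContinuousFunction.ofNormedAddCommGroupDiscrete (Pi.single n (1:ℂ)) 1 (by
      intro m
      by_cases h : m = n
      · subst h; simp
      · simp [Pi.single_eq_of_ne h])
  have he : ‖e‖ ≤ 1 := BoundedContinuousFunction.norm_ofNormedAddCommGroup_le _ zero_le_one _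
  let y : BoundedContinuousFunction ℕ ℂ := x + ((r / 2 : ℝ) : ℂ) • e
  have hy : y ∈ ball x r := by
    rw [mem_ball, dist_eq_norm]
    simp only [y, add_sub_cancel_left]
    rw [norm_smul, Complex.norm_real, Real.norm_of_nonneg (by positivity)]
    nlinarith
  obtain ⟨gy, hgy, hby, hiy⟩ := hxr hy
  refine ⟨fun z => ((2 / r : ℝ) : ℂ) * (gy z - gx z), (hgy.sub hgx).const_mul _, ?_, ?_⟩
  · intro z
    rw [norm_mul, Complex.norm_real, Real.norm_of_nonneg (by positivity)]
    have h1 : ‖gy z - gx z‖ ≤ 2 * (N * Real.exp (N * ρ z)) := by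
      have := norm_sub_le (gy z) (gx z)
      have := hbx z
      have := hby z
      linarith
    have h2 : (N : ℝ) ≤ M := (le_max_left _ _).trans hM
    have h3 : 4 * N / r ≤ M := (le_max_right _ _).trans hM
    have h4 := hρ0 z
    calc 2 / r * ‖gy z - gx z‖ ≤ 2 / r * (2 * (N * Real.exp (N * ρ z))) := by gcongr
      _ = (4 * N / r) * Real.exp (N * ρ z) := by ring
      _ ≤ M * Real.exp (M * ρ z) := by gcongr
  · intro m κ hκ
    have h1 : iteratedDeriv κ (fun z => ((2 / r : ℝ) : ℂ) * (gy z - gx z)) (a m) =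
        ((2 / r : ℝ) : ℂ) * (iteratedDeriv κ gy (a m) - iteratedDeriv κ gx (a m)) := by
      rw [iteratedDeriv_const_mul_field, iteratedDeriv_fun_sub hgy.contDiff.contDiffAt
        hgx.contDiff.contDiffAt]
    rw [h1, hiy m κ hκ, hix m κ hκ]
    split_ifs with h
    · have h2 : y m = x m + ((r / 2 : ℝ) : ℂ) * (Pi.single n (1:ℂ) : ℕ → ℂ) m := by
        simp only [y, e, BoundedContinuousFunction.coe_add, BoundedContinuousFunction.coe_smul,
          Pi.add_apply, smul_eq_mul]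
        rfl
      have hr0 : (r : ℂ) ≠ 0 := by exact_mod_cast hr.ne'
      rw [h2]
      push_cast
      field_simp
      ring
    · ring

end Pool.Agent.K9h48.UI
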